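import Pool.Agent.H58.CT.Targets

/-!
# ct_modules, CEN: centres
-/

set_option autoImplicit false

namespace Pool.Agent.H19.CT.CEN

open Pool.Agent.H58.CT

/-- CEN -/
theorem pf_CEN (hTRT : T_TRT) : T_CEN := by
  intro 𝒞 A B _ _ _ _ D E W hNo hD hE hW hnb hc
  obtain ⟨J, hJ, t, ht⟩ := hTRT 𝒞 B E hNo hE
  have hpair : ∀ (I : Type) [Finite I] (s : 𝒞.T I) (x : I → A) (y : I → B),
      (∀ i, (x i, y i) ∈ W) → (Alg.int s x, Alg.int s y) ∈ W := by
    intro I _ s x y h
    exact hW I s (fun i => (x i, y i)) h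
  have hC : {a | a ∈ D ∧ ∀ b ∈ E, (a, b) ∈ W} = D := by
    apply hD.2.2
    refine ⟨?_, ?_, fun a ha => ha.1, J, hJ, t, ?_⟩
    · obtain ⟨a, ha, hb⟩ := hc
      exact ⟨a, ha, hb⟩
    · intro I _ s x hx
      refine ⟨hD.2.1 I s x fun i => (hx i).1, ?_⟩
      intro b hb
      have h1 := hpair I s x (fun _ => b) fun i => (hx i).2 b hb
      rw [Alg.idem] at h1
      exact h1
    · intro i x hx hx'
      refine ⟨hD.2.1 J t x hx, ?_⟩
      intro b hb
      obtain ⟨b', hb', hw⟩ := hnb (x i) (hx i)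
      obtain ⟨y, hy, hyi, hyb⟩ := ht i b' hb' b hb
      rw [← hyb]
      apply hpair
      intro j
      by_cases hj : j = i
      · rw [hj, hyi]
        exact hw
      · exact (hx' j hj).2 _ (hy j)
  intro a ha b hb
  rw [← hC] at ha
  exact ha.2 b hb

end Pool.Agent.H19.CT.CEN
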