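import Pool.Agent.H58.CT.Targets

/-!
# ct_modules, CNN: connectedness by windows
-/

set_option autoImplicit false

namespace Pool.Agent.H19.CT.CNN

open Pool.Agent.H58.CT

variable {𝒞 : Cln} {A : Type} [Alg 𝒞 A] {p : ℕ}

/-- a step from equal coordinates -/
theorem step_of_co {R : Set (ZMod p → A)} {k : ℕ} {K K' : Set (ZMod p → A)} (hK : Mn 𝒞 K R)
    (hK' : Mn 𝒞 K' R)
    (hP : ∀ (i : ZMod p) (x : Fin k → A), (∀ j : Fin k, x j ∈ co (i + ((j : ℕ) : ZMod p)) K') →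
      ∃ n ∈ K', win i k n = x) (i : ZMod p)
    (h : ∀ j : Fin k, co (i + ((j : ℕ) : ZMod p)) K ⊆ co (i + ((j : ℕ) : ZMod p)) K') :
    WStp 𝒞 R k K K' := by
  obtain ⟨n, hn⟩ := hK.2.1
  obtain ⟨n', hn', he⟩ := hP i (win i k n) (fun j => h j ⟨n, hn, rfl⟩)
  exact ⟨hK, hK', i, n, hn, n', hn', he.symm⟩

/-- coordinates of sets with the same windows -/
theorem co_of_win {K K' : Set (ZMod p → A)} {k : ℕ} {i : ZMod p}
    (h : (fun r => win i k r) '' K = (fun r => win i k r) '' K') (j : ℕ) (hj : j < k) :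
    co (i + (j : ZMod p)) K ⊆ co (i + (j : ZMod p)) K' := by
  rintro a ⟨r, hr, rfl⟩
  have h1 : win i k r ∈ (fun r => win i k r) '' K' := by
    rw [← h]
    exact ⟨r, hr, rfl⟩
  obtain ⟨r', hr', he⟩ := h1
  have h2 := congrFun he ⟨j, hj⟩
  exact ⟨r', hr', h2⟩

/-- refinement of one step -/
theorem refine_step [Finite A] [Fact p.Prime] (hLNA : T_LNA) (hFEN : T_FEN) (hPRD : T_PRD)
    {R : Set (ZMod p → A)} (hNo : NoPrj 𝒞) (hR : Cyc 𝒞 R) {k : ℕ} (hk : k + 1 < p)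
    (hlk : LkBelow R (k + 1)) {N N' : Set (ZMod p → A)} (hst : WStp 𝒞 R k N N') :
    Relation.ReflTransGen (WStp 𝒞 R (k + 1)) N N' := by
  obtain ⟨hN, hN', i, n, hn, n', hn', hwin⟩ := hst
  have hNh : Mn 𝒞 ((fun r => win i k r) '' N) ((fun r => win i k r) '' R) :=
    hN.image (hm_win i k)
  have hNh' : Mn 𝒞 ((fun r => win i k r) '' N') ((fun r => win i k r) '' R) :=
    hN'.image (hm_win i k)
  have hF : (fun r => win i k r) '' N = (fun r => win i k r) '' N' := by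
    apply hNh.eq hNh'
    exact ⟨win i k n, ⟨n, hn, rfl⟩, ⟨n', hn', hwin.symm⟩⟩
  have hNR : N ⊆ R := hN.1.2.2.1
  have hNR' : N' ⊆ R := hN'.1.2.2.1
  have hQ : Abs 𝒞 (R ∩ (fun r => win i k r) ⁻¹' ((fun r => win i k r) '' N)) R :=
    abs_preimage (hm_win i k) hR.sub hNh.1 (fun a ha => ⟨a, ha, rfl⟩) ⟨n, hNR hn, n, hn, rfl⟩
  set Q : Set (ZMod p → A) := R ∩ (fun r => win i k r) ⁻¹' ((fun r => win i k r) '' N) with hQd
  have hNQ : N ⊆ Q := fun r hr => ⟨hNR hr, r, hr, rfl⟩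
  have hNQ' : N' ⊆ Q := by
    intro r hr
    refine ⟨hNR' hr, ?_⟩
    change win i k r ∈ (fun r => win i k r) '' N
    rw [hF]
    exact ⟨r, hr, rfl⟩
  have hQR : Q ⊆ R := hQ.2.2.1
  have hMN : Mn 𝒞 N Q := hN.restrict hNQ hQR
  have hMN' : Mn 𝒞 N' Q := hN'.restrict hNQ' hQR
  have hne : i - 1 ≠ i + (k : ZMod p) := by
    intro h
    have h1 : ((k + 1 : ℕ) : ZMod p) = 0 := by
      push_cast
      linear_combination -h
    rw [ZMod.natCast_eq_zero_iff] at h1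
    exact absurd (Nat.le_of_dvd (Nat.succ_pos k) h1) (not_le.mpr hk)
  have hlnk : Lnk Q (fun r => r (i - 1)) (fun r => r (i + (k : ZMod p))) :=
    hLNA 𝒞 _ _ _ R Q _ _ (hm_eval (i - 1)) (hm_eval (i + (k : ZMod p))) hQ
      (hR.lnk _ _ hne)
  have hchain := hFEN 𝒞 _ _ _ Q _ _ (hm_eval (i - 1)) (hm_eval (i + (k : ZMod p))) hQ.2.1 hlnk
    N N' hMN hMN'
  have hKF : ∀ K, Mn 𝒞 K Q → (fun r => win i k r) '' K = (fun r => win i k r) '' N := by
    intro K hK
    have hKR : Mn 𝒞 K R := hK.trans hQ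
    have h1 : Mn 𝒞 ((fun r => win i k r) '' K) ((fun r => win i k r) '' R) :=
      hKR.image (hm_win i k)
    apply h1.eq hNh
    obtain ⟨r, hr⟩ := hK.2.1
    exact ⟨win i k r, ⟨r, hr, rfl⟩, (hK.1.2.2.1 hr).2⟩
  refine hchain.lift id ?_
  rintro K K' ⟨hK, hK', hor⟩
  have hKR : Mn 𝒞 K R := hK.trans hQ
  have hKR' : Mn 𝒞 K' R := hK'.trans hQ
  have hh : (fun r => win i k r) '' K = (fun r => win i k r) '' K' := by
    rw [hKF K hK, hKF K' hK']
  have hP := hPRD 𝒞 A p R hNo hR (k + 1) hlk K' hKR'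
  rcases hor with hf | hg
  · refine step_of_co hKR hKR' hP (i - 1) ?_
    rintro ⟨j, hj⟩
    change co (i - 1 + (j : ZMod p)) K ⊆ co (i - 1 + (j : ZMod p)) K'
    rcases j with _ | j
    · have h0 : i - 1 + ((0 : ℕ) : ZMod p) = i - 1 := by
        rw [Nat.cast_zero, add_zero]
      rw [h0]
      exact hf.subset
    · have h1 : i - 1 + ((j + 1 : ℕ) : ZMod p) = i + (j : ZMod p) := by
        push_cast
        ring
      rw [h1]
      exact co_of_win hh j (by omega)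
  · refine step_of_co hKR hKR' hP i ?_
    rintro ⟨j, hj⟩
    change co (i + (j : ZMod p)) K ⊆ co (i + (j : ZMod p)) K'
    rcases Nat.lt_or_ge j k with h1 | h1
    · exact co_of_win hh j h1
    · have h2 : j = k := by omega
      rw [h2]
      exact hg.subset

/-- CNN -/
theorem pf_CNN (hLNA : T_LNA) (hFEN : T_FEN) (hPRD : T_PRD) : T_CNN := by
  intro 𝒞 A _ _ p _ R hNo hR k
  induction k with
  | zero =>
    intro _ _ N N' hN hN'
    obtain ⟨n, hn⟩ := hN.2.1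
    obtain ⟨n', hn'⟩ := hN'.2.1
    refine Relation.ReflTransGen.single ⟨hN, hN', 0, n, hn, n', hn', ?_⟩
    funext j
    exact j.elim0
  | succ k ih =>
    intro hk hlk N N' hN hN'
    have h1 := ih (by omega) (fun j h1 h2 i => hlk j h1 (by omega) i) N N' hN hN'
    induction h1 with
    | refl => exact Relation.ReflTransGen.refl
    | tail _ hst ih2 =>
      exact (ih2 hst.1).trans (refine_step hLNA hFEN hPRD hNo hR hk hlk hst)

end Pool.Agent.H19.CT.CNN
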