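import Pool.Agent.H58.CT.Targets

/-!
# ct_modules, CNT: counting fixed points
-/

set_option autoImplicit false

namespace Pool.Agent.H19.CT.CNT

open Pool.Agent.H58.CT

variable {A : Type} {p : ℕ}

theorem shift_nat {R : Set (ZMod p → A)} (hR : ∀ r ∈ R, sh r ∈ R) (n : ℕ) :
    ∀ r ∈ R, (fun j => r (j + (n : ZMod p))) ∈ R := by
  induction n with
  | zero =>
    intro r hr
    have h1 : (fun j => r (j + ((0 : ℕ) : ZMod p))) = r := by
      funext j
      rw [Nat.cast_zero, add_zero]
    rw [h1]
    exact hr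
  | succ n ih =>
    intro r hr
    have h1 := hR _ (ih r hr)
    have h2 : sh (fun j => r (j + (n : ZMod p))) = fun j => r (j + ((n + 1 : ℕ) : ZMod p)) := by
      funext j
      change r (j + 1 + (n : ZMod p)) = r (j + ((n + 1 : ℕ) : ZMod p))
      have h3 : j + 1 + (n : ZMod p) = j + ((n + 1 : ℕ) : ZMod p) := by
        push_cast
        ring
      rw [h3]
    rw [h2] at h1
    exact h1

theorem shift_all [Fact p.Prime] {R : Set (ZMod p → A)} (hR : ∀ r ∈ R, sh r ∈ R) (g : ZMod p) :
    ∀ r ∈ R, (fun j => r (j + g)) ∈ R := by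
  intro r hr
  have h1 := shift_nat hR g.val r hr
  rw [ZMod.natCast_zmod_val] at h1
  exact h1

/-- the action of the shifts on `R` -/
@[reducible] def act [Fact p.Prime] (R : Set (ZMod p → A)) (hR : ∀ r ∈ R, sh r ∈ R) :
    MulAction (Multiplicative (ZMod p)) R where
  smul g r := ⟨fun j => r.1 (j + Multiplicative.toAdd g), shift_all hR _ r.1 r.2⟩
  one_smul r := by
    apply Subtype.ext
    funext j
    change r.1 (j + 0) = r.1 j
    rw [add_zero]
  mul_smul g h r := by
    apply Subtype.ext
    funext j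
    change r.1 (j + (Multiplicative.toAdd g + Multiplicative.toAdd h))
      = r.1 (j + Multiplicative.toAdd g + Multiplicative.toAdd h)
    rw [add_assoc]

/-- CNT -/
theorem pf_CNT : T_CNT := by
  intro A _ _ p hp R hcard hR i k hinj hsurj
  let _ := act R hR
  have hG : IsPGroup p (Multiplicative (ZMod p)) := by
    refine IsPGroup.of_card (n := 1) ?_
    rw [pow_one]
    exact Nat.card_zmod p
  have : Finite R := by
    have hf : Function.Injective (fun r : R => win i k r.1) := by
      intro r r' h
      exact Subtype.ext (hinj r.1 r.2 r'.1 r'.2 h)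
    exact Finite.of_injective _ hf
  have hbij : Function.Bijective (fun r : R => win i k r.1) := by
    constructor
    · intro r r' h
      exact Subtype.ext (hinj r.1 r.2 r'.1 r'.2 h)
    · intro x
      obtain ⟨r, hr, h⟩ := hsurj x
      exact ⟨⟨r, hr⟩, h⟩
  have h1 : Nat.card R = Nat.card A ^ k := by
    rw [Nat.card_eq_of_bijective _ hbij, Nat.card_fun,
      Nat.card_eq_fintype_card (α := Fin k), Fintype.card_fin]
  have h2 := hG.card_modEq_card_fixedPoints R
  have h3 : ¬ p ∣ Nat.card R := by
    rw [h1]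
    intro h
    have h4 := hp.out.dvd_of_dvd_pow h
    have h5 : 0 < Nat.card A := Nat.card_pos
    exact absurd (Nat.le_of_dvd h5 h4) (not_le.mpr hcard)
  have h4 : Nat.card (MulAction.fixedPoints (Multiplicative (ZMod p)) R) ≠ 0 := by
    intro h5
    rw [h5] at h2
    exact h3 ((Nat.modEq_zero_iff_dvd).mp h2)
  have h5 : Nonempty (MulAction.fixedPoints (Multiplicative (ZMod p)) R) := by
    by_contra h6
    rw [not_nonempty_iff] at h6
    exact h4 (Nat.card_of_isEmpty)
  obtain ⟨⟨r, hr⟩⟩ := h5
  refine ⟨r.1 0, ?_⟩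
  have h6 : (fun _ => r.1 0) = r.1 := by
    funext j
    have h7 := congrArg (fun q : R => q.1 0) (hr (Multiplicative.ofAdd j))
    change r.1 (0 + j) = r.1 0 at h7
    rw [zero_add] at h7
    exact h7.symm
  rw [h6]
  exact r.2

end Pool.Agent.H19.CT.CNT
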