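import Pool.Agent.H58.CT.Targets

/-!
# ct_modules, SQR: relations with common neighbours
-/

set_option autoImplicit false

namespace Pool.Agent.H19.CT.SQR

open Pool.Agent.H58.CT

/-- SQR -/
theorem pf_SQR (hCEN : T_CEN) : T_SQR := by
  intro 𝒞 A B _ _ _ _ D E S hNo hD hE hS hsur hcom
  have hpair : ∀ (I : Type) [Finite I] (s : 𝒞.T I) (x : I → A) (y : I → B),
      (∀ i, (x i, y i) ∈ S) → (Alg.int s x, Alg.int s y) ∈ S := by
    intro I _ s x y h
    exact hS I s (fun i => (x i, y i)) h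
  have hclaim : ∀ (Y : Set A) (_ : Y.Finite), Y ⊆ D → ∀ x ∈ D, ∀ y ∈ D,
      ∃ c ∈ E, (x, c) ∈ S ∧ (y, c) ∈ S ∧ ∀ b ∈ Y, (b, c) ∈ S := by
    intro Y hY
    induction Y, hY using Set.Finite.induction_on with
    | empty =>
      intro _ x hx y hy
      obtain ⟨c, hc, h1, h2⟩ := hcom x hx y hy
      exact ⟨c, hc, h1, h2, fun b hb => absurd hb (Set.notMem_empty b)⟩
    | @insert a Y _ _ ih =>
      intro hYD x hx y hy
      have ha : a ∈ D := hYD (Set.mem_insert _ _)
      have ih' := ih fun b hb => hYD (Set.mem_insert_of_mem _ hb)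
      have hW : Sub 𝒞 {q : A × A | ∃ c ∈ E, (q.1, c) ∈ S ∧ (q.2, c) ∈ S ∧
          ∀ b ∈ insert a Y, (b, c) ∈ S} := by
        intro I _ t q hq
        choose c hc h1 h2 h3 using hq
        refine ⟨Alg.int t c, hE.2.1 I t c hc, ?_, ?_, ?_⟩
        · exact hpair I t (fun i => (q i).1) c h1
        · exact hpair I t (fun i => (q i).2) c h2
        · intro b hb
          have h4 := hpair I t (fun _ => b) c fun i => h3 i b hb
          rw [Alg.idem] at h4
          exact h4
      have h5 := hCEN 𝒞 A A D D _ hNo hD hD hW (by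
        intro x' hx'
        obtain ⟨c, hc, h1, h2, h3⟩ := ih' x' hx' a ha
        refine ⟨a, ha, c, hc, h1, h2, ?_⟩
        intro b hb
        rcases Set.mem_insert_iff.mp hb with h4 | h4
        · rw [h4]
          exact h2
        · exact h3 b h4) (by
        refine ⟨a, ha, ?_⟩
        intro y' hy'
        obtain ⟨c, hc, h1, h2, h3⟩ := ih' a ha y' hy'
        refine ⟨c, hc, h1, h2, ?_⟩
        intro b hb
        rcases Set.mem_insert_iff.mp hb with h4 | h4
        · rw [h4]
          exact h1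
        · exact h3 b h4) x hx y hy
      exact h5
  obtain ⟨x0, hx0⟩ := hD.1
  obtain ⟨c, hc, _, _, hcD⟩ := hclaim D (Set.toFinite _) subset_rfl x0 hx0 x0 hx0
  have hW' : Sub 𝒞 {q : B × A | (q.2, q.1) ∈ S} := by
    intro I _ t q hq
    exact hpair I t (fun i => (q i).2) (fun i => (q i).1) hq
  have h6 := hCEN 𝒞 B A E D _ hNo hE hD hW' hsur ⟨c, hc, hcD⟩
  intro a ha b hb
  exact h6 b hb a ha

end Pool.Agent.H19.CT.SQR
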