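import Pool.Agent.H58.CT.Targets

/-!
# ct_modules, TRT: absorption-free algebras have a transitive term
-/

set_option autoImplicit false

namespace Pool.Agent.H19.CT.TRT

open Pool.Agent.H58.CT

variable {𝒞 : Cln} {A : Type} [Alg 𝒞 A]

/-- the values of `g` at the tuples in `F` with entry `i` in `D` -/
def im (𝒞 : Cln) [Alg 𝒞 A] (F : Set A) {I : Type} [Finite I] (g : 𝒞.T I) (i : I) (D : Set A) :
    Set A :=
  {b | ∃ x : I → A, (∀ j, x j ∈ F) ∧ x i ∈ D ∧ Alg.int g x = b}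

theorem im_mono {F : Set A} {I : Type} [Finite I] (g : 𝒞.T I) (i : I) {D D' : Set A}
    (h : D ⊆ D') : im 𝒞 F g i D ⊆ im 𝒞 F g i D' := by
  rintro b ⟨x, h1, h2, h3⟩
  exact ⟨x, h1, h h2, h3⟩

theorem sub_im {F : Set A} {I : Type} [Finite I] (g : 𝒞.T I) (i : I) {D : Set A}
    (h : D ⊆ F) : D ⊆ im 𝒞 F g i D := fun a ha =>
  ⟨fun _ => a, fun _ => h ha, ha, Alg.idem g a⟩

theorem im_sub {F : Set A} (hF : Sub 𝒞 F) {I : Type} [Finite I] (g : 𝒞.T I) (i : I)
    (D : Set A) : im 𝒞 F g i D ⊆ F := by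
  rintro b ⟨x, h1, _, rfl⟩
  exact hF I g x h1

theorem star_im {F : Set A} {I J : Type} [Finite I] [Finite J] (g : 𝒞.T I) (h : 𝒞.T J) (i : I)
    (j : J) (D : Set A) :
    im 𝒞 F g i (im 𝒞 F h j D) ⊆ im 𝒞 F (star 𝒞 g h) (i, j) D := by
  classical
  rintro b ⟨y, hy, ⟨z, hz, hzj, hzy⟩, rfl⟩
  refine ⟨fun q => if q.1 = i then z q.2 else y q.1, ?_, ?_, ?_⟩
  · intro q
    by_cases hq : q.1 = i
    · simp only [hq, if_true]
      exact hz _
    · simp only [hq, if_false]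
      exact hy _
  · simp only [if_true]
    exact hzj
  · rw [int_star]
    congr 1
    funext i'
    by_cases hi : i' = i
    · subst hi
      simp only [if_true]
      exact hzy
    · simp only [hi, if_false]
      exact Alg.idem h (y i')

/-- no coordinate of `g` keeps `D` -/
def Good (𝒞 : Cln) [Alg 𝒞 A] (F : Set A) {I : Type} [Finite I] (g : 𝒞.T I) (D : Set A) : Prop :=
  ∀ i, ¬ im 𝒞 F g i D ⊆ D

theorem good_left {F : Set A} {I J : Type} [Finite I] [Finite J] {g : 𝒞.T I} (h : 𝒞.T J)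
    {D : Set A} (hD : D ⊆ F) (hg : Good 𝒞 F g D) : Good 𝒞 F (star 𝒞 g h) D := by
  rintro ⟨i, j⟩ hc
  apply hg i
  exact ((im_mono g i (sub_im h j hD)).trans (star_im g h i j D)).trans hc

theorem good_right {F : Set A} (hF : Sub 𝒞 F) {I J : Type} [Finite I] [Finite J] (g : 𝒞.T I)
    {h : 𝒞.T J} {D : Set A} (hg : Good 𝒞 F h D) : Good 𝒞 F (star 𝒞 g h) D := by
  rintro ⟨i, j⟩ hc
  apply hg j
  exact ((sub_im g i (im_sub hF h j D)).trans (star_im g h i j D)).trans hc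

/-- one term for finitely many sets -/
theorem exists_good {F : Set A} (hF : Sub 𝒞 F)
    (hall : ∀ D : Set A, D.Nonempty → D ⊆ F → D ≠ F →
      ∃ (I : Type) (_ : Finite I) (g : 𝒞.T I), Good 𝒞 F g D) (S : Set (Set A)) (hS : S.Finite) :
    (∀ D ∈ S, D.Nonempty ∧ D ⊆ F ∧ D ≠ F) →
      ∃ (I : Type) (_ : Finite I) (g : 𝒞.T I), ∀ D ∈ S, Good 𝒞 F g D := by
  induction S, hS using Set.Finite.induction_on with
  | empty =>
    intro _
    exact ⟨Unit, inferInstance, 𝒞.pr (), fun D hD => absurd hD (Set.notMem_empty D)⟩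
  | @insert D S _ _ ih =>
    intro h
    obtain ⟨I, hI, g, hg⟩ := ih fun D' hD' => h D' (Set.mem_insert_of_mem _ hD')
    obtain ⟨h1, h2, h3⟩ := h D (Set.mem_insert _ _)
    obtain ⟨J, hJ, g', hg'⟩ := hall D h1 h2 h3
    refine ⟨I × J, inferInstance, star 𝒞 g g', ?_⟩
    intro D' hD'
    rcases Set.mem_insert_iff.mp hD' with h4 | h4
    · rw [h4]
      exact good_right hF g hg'
    · exact good_left g' (h D' hD').2.1 (hg D' h4)

/-- iteration -/
theorem exists_large [Finite A] {F : Set A} (hF : Sub 𝒞 F) {I : Type} [Finite I] (g : 𝒞.T I)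
    (hg : ∀ D : Set A, D.Nonempty → D ⊆ F → D ≠ F → Good 𝒞 F g D) (k : ℕ) :
    ∃ (J : Type) (_ : Finite J) (f : 𝒞.T J), ∀ (j : J), ∀ a ∈ F,
      im 𝒞 F f j {a} = F ∨ k ≤ (im 𝒞 F f j {a}).ncard := by
  induction k with
  | zero => exact ⟨Unit, inferInstance, 𝒞.pr (), fun _ _ _ => Or.inr (Nat.zero_le _)⟩
  | succ k ih =>
    obtain ⟨J, hJ, f, hf⟩ := ih
    refine ⟨I × J, inferInstance, star 𝒞 g f, ?_⟩
    rintro ⟨i, j⟩ a ha
    have hs := star_im (F := F) g f i j {a}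
    have hDF : im 𝒞 F f j {a} ⊆ F := im_sub hF f j _
    have hD1 := sub_im g i hDF
    have hne : (im 𝒞 F f j {a}).Nonempty :=
      ⟨a, sub_im f j (Set.singleton_subset_iff.mpr ha) rfl⟩
    by_cases hE : im 𝒞 F f j {a} = F
    · left
      refine subset_antisymm (im_sub hF _ _ _) ?_
      have h1 := hD1.trans hs
      rw [hE] at h1
      exact h1
    · rcases hf j a ha with h1 | h1
      · exact absurd h1 hE
      · right
        have h2 : im 𝒞 F f j {a} ⊂ im 𝒞 F g i (im 𝒞 F f j {a}) := ⟨hD1, hg _ hne hDF hE i⟩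
        have h3 := Set.ncard_lt_ncard h2 (Set.toFinite _)
        have h4 := Set.ncard_le_ncard hs (Set.toFinite _)
        omega

/-- TRT -/
theorem pf_TRT : T_TRT := by
  intro 𝒞 A _ _ F hNo hAF
  obtain ⟨hFne, hF, hmin⟩ := hAF
  by_cases hall : ∀ D : Set A, D.Nonempty → D ⊆ F → D ≠ F →
      ∃ (I : Type) (_ : Finite I) (g : 𝒞.T I), Good 𝒞 F g D
  · obtain ⟨I, hI, g, hg⟩ := exists_good hF hall {D | D.Nonempty ∧ D ⊆ F ∧ D ≠ F}
      (Set.toFinite _) (fun D hD => hD)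
    obtain ⟨J, hJ, f, hf⟩ := exists_large hF g (fun D h1 h2 h3 => hg D ⟨h1, h2, h3⟩)
      (Nat.card A + 1)
    refine ⟨J, hJ, f, ?_⟩
    intro j a ha b hb
    have h1 : im 𝒞 F f j {a} = F := by
      rcases hf j a ha with h1 | h1
      · exact h1
      · have h2 : (im 𝒞 F f j {a}).ncard ≤ Nat.card A := Set.ncard_le_card _
        omega
    rw [← h1] at hb
    obtain ⟨x, h2, h3, h4⟩ := hb
    exact ⟨x, h2, h3, h4⟩
  · exfalso
    push Not at hall
    obtain ⟨D, hDne, hDF, hDF', hD⟩ := hall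
    have hD' : ∀ (I : Type) [Finite I] (g : 𝒞.T I), ∃ i, im 𝒞 F g i D ⊆ D := by
      intro I hI g
      have h1 := hD I hI g
      unfold Good at h1
      push Not at h1
      exact h1
    have hSub : Sub 𝒞 D := by
      intro I _ t x hx
      obtain ⟨i, hi⟩ := hD' I t
      exact hi ⟨x, fun j => hDF (hx j), hx i, rfl⟩
    have huniq : ∀ (I : Type) [Finite I] (g : 𝒞.T I) (i i' : I), im 𝒞 F g i D ⊆ D →
        im 𝒞 F g i' D ⊆ D → i = i' := by
      intro I _ g i i' hi hi'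
      by_contra hne
      apply hDF'
      apply hmin
      refine ⟨hDne, hSub, hDF, I, inferInstance, g, ?_⟩
      intro c x hx hx'
      by_cases hc : i = c
      · exact hi' ⟨x, hx, hx' i' (fun h => hne (hc.trans h.symm)), rfl⟩
      · exact hi ⟨x, hx, hx' i hc, rfl⟩
    apply hNo
    refine ⟨fun I _ g => Classical.choose (hD' I g), ?_, ?_⟩
    · intro I _ i
      refine huniq I (𝒞.pr i) _ _ (Classical.choose_spec (hD' I (𝒞.pr i))) ?_
      rintro b ⟨x, _, h2, rfl⟩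
      rw [Alg.int_pr]
      exact h2
    · intro I J _ _ t s
      refine huniq J (𝒞.comp t s) _ _ (Classical.choose_spec (hD' J (𝒞.comp t s))) ?_
      rintro b ⟨x, h1, h2, rfl⟩
      rw [Alg.int_comp]
      refine Classical.choose_spec (hD' I t) ⟨fun i => Alg.int (s i) x, ?_, ?_, rfl⟩
      · intro i
        exact hF J (s i) x h1
      · exact Classical.choose_spec (hD' J (s (Classical.choose (hD' I t)))) ⟨x, h1, h2, rfl⟩

end Pool.Agent.H19.CT.TRT
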